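import Pool.Agent.Run7.h830.CS.Sps

/-!
# The semi-abelian special set and the non-general-type locus of surfaces which carry a map with many
preperiodic points

`X` is a complex projective surface (an integral closed subvariety of a projective space of dimension two,
smooth or singular), given by its function field `K` and the homogeneous coordinates `x` of its generic
point: `coords ℂ x = ⊤` says that the ratios of the coordinates generate `K`.

`ManyPrep ℂ d B p q` (`Pool/Agent/Q103/EC/Mxv.lean`): `f = p / q` is a rational map of degree `d` of the
projective line over `K` (a family of rational maps over an open subset of `X`) with at least `B`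
preperiodic points in `P^1(K)` (preperiodic rational sections), and the moduli map `X ⇢ M_d` is generically
finite: if `f` is conjugate over an algebraic closure of `K` to a map with coefficients algebraic over a
field between `ℂ` and `K`, then `K` is algebraic over this field. For instance all generically finite
covers of the surfaces of the quadratic maps with a marked point of exact period `n ≥ B` are such surfaces
(`Pool.Agent.Q103.SF.exists_surface`).

A closed subset of `X` is given by the set of the forms which vanish on it
(`Pool/Agent/Q103/SF/Defs2.lean`):
* `algForms x` gives the Zariski closure `Sp_alg(X)` of the union of the closed subvarieties of positive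
  dimension which are not of general type (`SubOf ℂ x z`: `z` is the generic point of a closed subvariety;
  `GeneralType ℂ E w`: for some `N > 0` there are `N`-canonical forms of the function field `E`, regular at
  all prime divisors of all models, with `w` algebraically independent ratios),
* `ellForms x` the Zariski closure of the union of the images of the nonconstant maps from elliptic curves,
* `meroForms x` the Zariski closure of the union of the images of the nonconstant meromorphic maps from the
  spaces `ℂ ^ g`, `g ≥ 1`.

Theorem. For every `d ≥ 2` there is a number `B` such that for all projective surfaces `X` with a rational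
map `f` of degree `d` over `K` with at least `B` preperiodic points in `P^1(K)` and generically finite moduli
map these three closed sets are equal, and they are not equal to `X`: some form which does not vanish on `X`
vanishes on them.

As elliptic curves are semi-abelian varieties, and a rational map from a semi-abelian variety of dimension
`g` gives a meromorphic map from its universal cover `ℂ ^ g`, the semi-abelian special set `Sp_sab(X)` is
between the sets given by `ellForms x` and `meroForms x`. So `Sp_sab(X) = Sp_alg(X)`, the equality of Q1.

Proof. All parts of the proof are in helper theorems of the starting files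
(`Pool.Agent.Q103.SF.surface_special`, helper103, helper95, helper111, helper285, helper24 and others, not
handed in); the file `Pool/Agent/Run7/h830/CS/Sps.lean` compares the closed sets: each closed subvariety of
positive dimension is of general type or a curve of genus at most one, and these are images of elliptic
curves.
-/

set_option autoImplicit false

namespace Pool.Agent.Run7.h830.Kept.AlgSpecialSetCase

open Polynomial
open Pool.Agent.W602.GT (coords val)
open Pool.Agent.Q103.EC (ManyPrep)
open Pool.Agent.Q103.SF (algForms ellForms meroForms)

/-- **The semi-abelian special set and the non-general-type locus** of surfaces which carry a map with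
many preperiodic points. -/
theorem result (d : ℕ) (hd : 2 ≤ d) : ∃ B : ℕ, ∀ (K : Type) [Field K] [Algebra ℂ K] (p q : K[X]),
    ManyPrep ℂ d B p q → Algebra.trdeg ℂ K = (2 : ℕ) → ∀ (M : ℕ) (x : Fin (M + 1) → K), x ≠ 0 →
    coords ℂ x = ⊤ → ellForms x = algForms x ∧ meroForms x = algForms x ∧
      ∃ R ∈ algForms x, val x R ≠ 0 := by
  obtain ⟨B, hB⟩ := Pool.Agent.Q103.EC.main d hd
  refine ⟨B, fun K _ _ p q h htr M x hx hgen => ?_⟩
  obtain ⟨h1, h2⟩ := hB K p q h 2 (by norm_num) htr
  obtain ⟨R, hR⟩ := h2 M x hx hgen
  have hS := Pool.Agent.Q103.SF.special Pool.Agent.Q95.SF.wei htr hx hgen hR
  have h3 := Pool.Agent.Run7.h830.CS.alg_eq hS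
  refine ⟨(Pool.Agent.Run7.h830.CS.ell_eq hS).trans h3.symm,
    (Pool.Agent.Run7.h830.CS.mero_eq hS).trans h3.symm, R, ⟨hR.form, ?_⟩, hR.ne⟩
  intro E _ _ w z hz hw ht hn
  by_contra hz0
  exact hn (hR.sub E w z hz hz0 hw ht)

end Pool.Agent.Run7.h830.Kept.AlgSpecialSetCase
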