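import Pool.Agent.Q103.SF.Fin2

/-!
# Entire curves and elliptic curves on surfaces which carry a map with many preperiodic points

`X` is a complex projective surface (an integral closed subvariety of a projective space of dimension two,
smooth or singular), given by its function field `K` and the homogeneous coordinates `x` of its generic
point: `coords ℂ x = ⊤` says that the ratios of the coordinates generate `K`.

`ManyPrep ℂ d B p q` (`Pool/Agent/Q103/EC/Mxv.lean`): `f = p / q` is a rational map of degree `d` of the
projective line over `K` (a family of rational maps over an open subset of `X`) with at least `B`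
preperiodic points in `P^1(K)` (preperiodic rational sections), and the moduli map `X ⇢ M_d` is generically
finite: if `f` is conjugate over an algebraic closure of `K` to a map with coefficients algebraic over a
field between `ℂ` and `K`, then `K` is algebraic over this field. For instance all generically finite
covers of the surfaces of the quadratic maps with a marked point of exact period `n ≥ B` are such surfaces
(`Pool.Agent.Q103.SF.exists_surface`).

* `EntireCurve x g`: `g : ℂ → X` is a nonconstant holomorphic map.
* `OnVar ℂ x v`, `Nonconst v`, `IsElliptic E`: `v` is a nonconstant morphism from the elliptic curve with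
  the function field `E` to `X`; `van v` are the forms which vanish on its image and `vanOn Set.univ g` the
  forms which vanish on `g(ℂ)`.
* `NoElliptic x`: every morphism from an elliptic curve to `X` is constant.
* `BrodyHyp x`: `X` is Brody hyperbolic, every holomorphic map from `ℂ` to `X` is constant.
* `PicardHyp x`: every holomorphic map from the punctured disc to `X` extends to the disc.
* `AlgHyp x`: the degree of the nonconstant maps from the curves of genus `g` to `X` is at most
  `A * (2 * g - 2)`, for a constant `A`.

Theorem. For every `d ≥ 2` there is a number `B` such that for all projective surfaces `X` with a rational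
map `f` of degree `d` over `K` with at least `B` preperiodic points in `P^1(K)` and generically finite moduli
map:

* the Zariski closure of the image of every nonconstant holomorphic map `ℂ → X` is the image of a nonconstant
  morphism from an elliptic curve to `X`;
* if `X` admits no nonconstant morphism from an elliptic curve (in particular, if it admits no nonconstant
  morphism from an abelian variety), then `X` is Brody hyperbolic; both properties are equivalent to `PicardHyp`
  and to `AlgHyp`.

This is Q1 for these surfaces.

Proof. The equivalence and the description of the special sets are contained in helper theorems of the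
starting files, `Pool.Agent.Q103.SF.surface_tfae` and `surface_special` (helper103, helper95, helper111,
helper285, helper24, helper239 and others), which were not handed in for this problem; a consequence is the
starting result `MP_f82ddf_nt.ManyPreperiodicSurfaces` on surfaces over number fields with finitely many
rational points.
-/

set_option autoImplicit false

namespace Pool.Agent.Run7.h830.Kept.BrodyCase

open Polynomial FF
open Pool.Agent.W602.GT (coords)
open Pool.Agent.Y221.BD (EntireCurve)
open Pool.Agent.Y216 (OnVar)
open Pool.Agent.Q271.RC (Nonconst)
open Pool.Agent.Q103.EC (ManyPrep)
open Pool.Agent.Q103.SF (van vanOn IsElliptic NoElliptic BrodyHyp PicardHyp AlgHyp surface_tfae)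

/-- **The Green–Griffiths–Lang conjecture on entire curves** for surfaces which carry a map with many
preperiodic points. -/
theorem result (d : ℕ) (hd : 2 ≤ d) : ∃ B : ℕ, ∀ (K : Type) [Field K] [Algebra ℂ K] (p q : K[X]),
    ManyPrep ℂ d B p q → Algebra.trdeg ℂ K = (2 : ℕ) → ∀ (M : ℕ) (x : Fin (M + 1) → K), x ≠ 0 →
    coords ℂ x = ⊤ →
    (∀ g, EntireCurve x g → ∃ (E : Type) (_ : Field E) (_ : Algebra ℂ E) (_ : IsFF ℂ E)
      (v : Fin (M + 1) → E), IsElliptic E ∧ OnVar ℂ x v ∧ Nonconst v ∧
        van v = vanOn Set.univ (fun t i => g i t)) ∧
    [NoElliptic x, BrodyHyp x, PicardHyp x, AlgHyp x].TFAE := by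
  obtain ⟨B, hB⟩ := surface_tfae d hd
  refine ⟨B, fun K _ _ p q h htr M x hx hgen => ?_⟩
  obtain ⟨-, h2, h3⟩ := hB K p q h htr M x hx hgen
  refine ⟨fun g hg => h2.elliptic _ (h2.entire g hg), ?_⟩
  tfae_have 1 ↔ 2 := h3.out 4 1
  tfae_have 1 ↔ 3 := h3.out 4 2
  tfae_have 1 ↔ 4 := h3.out 4 5
  tfae_finish

end Pool.Agent.Run7.h830.Kept.BrodyCase
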