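import Pool.Agent.Q103.EC.Hyp

/-!
# The semi-abelian special set of varieties which carry a map with many preperiodic points

`X` is a complex projective variety of dimension `w ≥ 1` (an integral closed subvariety of a projective
space, smooth or singular), given by its function field `K` and the homogeneous coordinates `x` of its
generic point: `coords ℂ x = ⊤` says that the ratios of the coordinates generate `K`.

`ManyPrep ℂ d B p q` (`Pool/Agent/Q103/EC/Mxv.lean`): `f = p / q` is a rational map of degree `d` of the
projective line over `K` (a family of rational maps over an open subset of `X`) with at least `B`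
preperiodic points in `P^1(K)` (preperiodic rational sections), and the moduli map `X ⇢ M_d` is generically
finite: if `f` is conjugate over an algebraic closure of `K` to a map with coefficients algebraic over a
field between `ℂ` and `K`, then `K` is algebraic over this field. The number `B` depends only on `d`, and
there are examples for every `d` and `B`, of dimension `2 d - 2` (`Pool.Agent.Q103.RP.exists_over`): covers
of the moduli spaces `M_d`; every variety with a generically finite rational map to an example is an
example.

* `GeneralType ℂ K w`: for some `N > 0` there are `N`-canonical forms of the function field `K`, regular at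
  all prime divisors of all models, with `w` algebraically independent ratios, i.e. `X` is of general type.
* `MeroMap x g h`: `h 0, ..., h M` are entire functions on `ℂ ^ g`, the homogeneous coordinates of a
  nonconstant meromorphic map from `ℂ ^ g` to `X`.
* `TorusCurve x f`: the homogeneous coordinates `f 0, ..., f M` are polynomials in `t`, which define a
  nonconstant map from the multiplicative group to `X`.

Theorem. For every `d ≥ 2` there is a number `B` such that all projective varieties `X` with such a map of
degree `d` with at least `B` preperiodic points are of general type, and the images of all nonconstant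
meromorphic maps from the spaces `ℂ ^ g`, `g ≥ 1`, to `X`, and of all nonconstant maps from the
multiplicative group, are contained in one proper closed subset `Z = {R = 0}` of `X`.

A rational map from a semi-abelian variety `A` of dimension `g` to `X` gives a meromorphic map from the
universal cover `ℂ ^ g` of `A`. So `Sp_sab(X)` is contained in `Z`, and both sides of the equivalence of Q1
hold for `X`.

Proof. All parts of the proof are in the helper theorem `Pool.Agent.Q103.EC.main` of the starting files
(helper103 and others), which was not handed in for this problem.
-/

set_option autoImplicit false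

namespace Pool.Agent.Run7.h830.Kept.GeneralTypeCase

open Polynomial
open Pool.Agent.W602.GT
open Pool.Agent.Y221.PD (MeroMap TorusCurve)
open Pool.Agent.Q103.EC (ManyPrep)

/-- **The semi-abelian special set** of varieties which carry a map with many preperiodic points. -/
theorem result (d : ℕ) (hd : 2 ≤ d) : ∃ B : ℕ, ∀ (K : Type) [Field K] [Algebra ℂ K] (p q : K[X]),
    ManyPrep ℂ d B p q → ∀ w : ℕ, 1 ≤ w → Algebra.trdeg ℂ K = w → GeneralType ℂ K w ∧
    ∀ (M : ℕ) (x : Fin (M + 1) → K), x ≠ 0 → coords ℂ x = ⊤ →
      ∃ R : MvPolynomial (Fin (M + 1)) ℂ, IsForm R ∧ val x R ≠ 0 ∧
        (∀ g h, MeroMap x g h → ∀ t, MvPolynomial.eval (fun i => h i t) R = 0) ∧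
        ∀ f, TorusCurve x f → ∀ t, t ≠ 0 → MvPolynomial.eval (fun i => (f i).eval t) R = 0 := by
  obtain ⟨B, hB⟩ := Pool.Agent.Q103.EC.main d hd
  refine ⟨B, fun K _ _ p q h w hw htr => ?_⟩
  obtain ⟨h1, h2⟩ := hB K p q h w hw htr
  refine ⟨h1, fun M x hx hgen => ?_⟩
  obtain ⟨R, hR⟩ := h2 M x hx hgen
  exact ⟨R, hR.form, hR.ne, hR.mero, hR.torus⟩

end Pool.Agent.Run7.h830.Kept.GeneralTypeCase
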