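import Pool.Agent.Run7.h830.CS.Geo

/-!
# General type and pseudo-geometric hyperbolicity of varieties which carry a map with many preperiodic
points

`k` is any algebraically closed field of characteristic zero, and `X` is a projective variety over `k` of
dimension `w ≥ 1` (an integral closed subvariety of a projective space, smooth or singular), given by its
function field `K` and the homogeneous coordinates `x` of its generic point: `coords k x = ⊤` says that the
ratios of the coordinates generate `K`.

`ManyPrep k d B p q` (`Pool/Agent/Q103/EC/Mxv.lean`): `f = p / q` is a rational map of degree `d` of the
projective line over `K` (a family of rational maps over an open subset of `X`) with at least `B`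
preperiodic points in `P^1(K)` (preperiodic rational sections), and the moduli map `X ⇢ M_d` is generically
finite: if `f` is conjugate over an algebraic closure of `K` to a map with coefficients algebraic over a
field between `k` and `K`, then `K` is algebraic over this field. The number `B` depends only on `d`, and
there are examples over every field `k`, for every `d` and `B`, of dimension `2 d - 2`
(`Pool.Agent.Q103.RP.exists_over`): covers of the moduli spaces `M_d`; every variety with a generically
finite rational map to an example is an example.

* `GeneralType k K w`: for some `N > 0` there are `N`-canonical forms of the function field `K`, regular at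
  all prime divisors of all models, with `w` algebraically independent ratios, i.e. `X` is of general type.
* `StronglyGeneral k x`: off a proper closed subset all closed subvarieties of positive dimension of `X` are
  of general type.
* `PseudoGeomHyp k x`: `X` is pseudo-geometrically hyperbolic: off a proper closed subset, for every pointed
  curve there are only finitely many morphisms to `X` with a given value at the marked point. (A morphism
  from a smooth curve to a projective variety extends to the smooth projective model of the curve, which is
  given by its function field.)
* `CurveBound k x`: there are a proper closed subset `Z` and a number `A` such that the degree of a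
  nonconstant morphism from a smooth projective curve of genus `g` to `X` with image not in `Z` is at most
  `A * max (2 * g - 2) 0`.

Theorem. For every `d ≥ 2` there is a number `B` such that all projective varieties `X` over algebraically
closed fields of characteristic zero with such a map of degree `d` with at least `B` preperiodic points are
of general type and pseudo-geometrically hyperbolic. So both sides of the equivalence of Q1 hold for `X`.
Moreover the closed subvarieties of `X` which are not of general type are contained in a proper closed
subset, and the degrees of the curves which are not contained in a proper closed subset are bounded linearly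
in terms of the genus.

Proof. All parts of the proof are in helper theorems of the starting files which were not handed in for this
problem (`Pool.Agent.Q41.GT.a_gt`, `Pool.Agent.Q41.GT.c_dcb`, `Pool.Agent.Q103.EC.b_str`; helper41,
helper103 and others); the file `Pool/Agent/Run7/h830/CS/Geo.lean` combines them.
-/

set_option autoImplicit false

namespace Pool.Agent.Run7.h830.Kept.GeometricCase

open Polynomial
open Pool.Agent.W602.GT (coords GeneralType)
open Pool.Agent.W602.RG (PseudoGeomHyp)
open Pool.Agent.Y216 (CurveBound)
open Pool.Agent.TH466.QG (StronglyGeneral)
open Pool.Agent.Q103.EC (ManyPrep)

/-- **General type and pseudo-geometric hyperbolicity** of varieties which carry a map with many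
preperiodic points. -/
theorem result (d : ℕ) (hd : 2 ≤ d) : ∃ B : ℕ, ∀ (k : Type) [Field k] [IsAlgClosed k] [CharZero k]
    (K : Type) [Field K] [Algebra k K] (p q : K[X]), ManyPrep k d B p q → ∀ w : ℕ, 1 ≤ w →
    Algebra.trdeg k K = w → ∀ (M : ℕ) (x : Fin (M + 1) → K), x ≠ 0 → coords k x = ⊤ →
      GeneralType k K w ∧ PseudoGeomHyp k x ∧ StronglyGeneral k x ∧ CurveBound k x := by
  obtain ⟨B, hB⟩ := Pool.Agent.Run7.h830.CS.geom d hd
  refine ⟨B, fun k _ _ _ K _ _ p q h w hw htr M x hx hgen => ?_⟩
  obtain ⟨h1, h2⟩ := hB k K p q h
  obtain ⟨h3, h4, h5⟩ := h2 M x hx hgen
  exact ⟨h1 w hw htr, h4, h3, h5⟩

end Pool.Agent.Run7.h830.Kept.GeometricCase
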