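import Pool.Agent.Run7.h830.GN.Surf

/-!
# The degrees of the curves of bounded gonality on surfaces which are dominated by a surface with a map with
many preperiodic points

`X` is a complex projective surface (an integral closed subvariety of dimension two of a projective space,
smooth or singular), given by its function field `E` and the homogeneous coordinates `x` of its generic
point: `coords ℂ x = ⊤` says that the ratios of the coordinates generate `E`. `K` is a finite extension of
`E` of degree at most `r`: the function field of a surface `X₁` with a dominant rational map `X₁ ⇢ X` of
degree at most `r` (for instance `X₁ = X`).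

`ManyPrep ℂ d B p q` (`Pool/Agent/Q103/EC/Mxv.lean`): `f = p / q` is a rational map of degree `d` of the
projective line over `K` (a family of rational maps over an open subset of `X₁`) with at least `B`
preperiodic points in `P^1(K)` (preperiodic rational sections), and the moduli map `X₁ ⇢ M_d` is generically
finite: if `f` is conjugate over an algebraic closure of `K` to a map with coefficients algebraic over a
field between `ℂ` and `K`, then `K` is algebraic over this field. For all `B` there are such surfaces
(`Pool.Agent.Q103.SF.exists_surface`: the surfaces of the quadratic maps with a marked point of exact period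
`n`, and all their covers).

A curve `C` in `X` is given by its function field `L` (`IsFF ℂ L`: a function field of one variable) and its
generic point `v` (`OnVar ℂ x v`: the forms which vanish at `x` vanish at `v`; `coords ℂ v = ⊤`: the ratios of
the coordinates of `v` generate `L`). `van v` is the set of the forms which vanish on `C`, it determines `C`.
`pht ℂ v` is the degree of `C` in the projective space. `Gon ℂ γ L`: the field `L` has degree at most
`γ` over a subfield `ℂ(t)`, that is, the gonality of (the normalization of) `C` is at most `γ`.

Theorem. For all `d ≥ 2`, `r` and `γ` there is a number `B` such that each surface `X` which is dominated with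
degree at most `r` by a surface `X₁` which carries a rational map `f` of degree `d` with at least `B`
preperiodic points in `P^1(K)` and generically finite moduli map, contains only finitely many curves of
gonality at most `γ`. So their degrees are bounded by a constant `C₀`, and for smooth `X` their canonical
degrees are bounded by a constant, whatever their genus is: this is the inequality of Q1 for these curves,
with `A = 0`. (The theorem `MP_308c18_ag.ManyPreperiodicSurfaces` is the inequality of Q1 for all curves on
the surfaces which carry such a map themselves, `r = 1`; here the inequality does not depend on the genus,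
and `X` is only dominated by such a surface.)

This is the analogue of the theorem of Nadel and others on curves of bounded gonality in the quotients of
bounded symmetric domains by congruence subgroups of high level. For `γ = 1` the surface contains only
finitely many rational curves, for `γ = 2` only finitely many curves which are rational, elliptic or
hyperelliptic.

Proof. The map and its preperiodic points specialize to almost all curves `C` in `X`; the specialization is a
map over an extension `L'` of `L` of degree at most `r`, so over a field of gonality at most `r γ`. By the
theorem of strong uniform boundedness over function fields (helper41, helper103, helper144 and others,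
helper files of the starting tree) the cross ratios of its preperiodic points are constant if there are more
than `B(d, r γ)` of them. But the coordinates of the generic point of `C` are algebraic over the field of the
cross ratios.
-/

set_option autoImplicit false

namespace Pool.Agent.Run7.h830.Kept.GonalityCase

open FF Polynomial
open Pool.Agent.W602.GT (coords)
open Pool.Agent.Y216 (OnVar)
open Pool.Agent.W603.PV (pht)
open Pool.Agent.Q103.EC (ManyPrep)
open Pool.Agent.Q103.SF (van)
open Pool.Agent.Run7.h830.GN (Gon)

/-- the closed curves of gonality at most `γ` in the projective variety with the generic point `x`, each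
given by the set of the forms which vanish on it -/
def gonCurves (γ : ℕ) {M : ℕ} {E : Type} [Field E] [Algebra ℂ E] (x : Fin (M + 1) → E) :
    Set (Set (MvPolynomial (Fin (M + 1)) ℂ)) :=
  {V | ∃ (L : Type) (_ : Field L) (_ : Algebra ℂ L) (_ : IsFF ℂ L) (v : Fin (M + 1) → L),
    OnVar ℂ x v ∧ coords ℂ v = ⊤ ∧ Gon ℂ γ L ∧ V = van v}

/-- **Curves of bounded gonality** on the surfaces which are dominated by a surface with a map with many
preperiodic points. -/
theorem result (d : ℕ) (hd : 2 ≤ d) (r γ : ℕ) : ∃ B : ℕ, ∀ (E K : Type) [Field E] [Algebra ℂ E]
    [Field K] [Algebra ℂ K] [Algebra E K] [IsScalarTower ℂ E K] [FiniteDimensional E K]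
    (p q : K[X]), Module.finrank E K ≤ r → ManyPrep ℂ d B p q → Algebra.trdeg ℂ E = (2 : ℕ) →
    ∀ (M : ℕ) (x : Fin (M + 1) → E), x ≠ 0 → coords ℂ x = ⊤ →
    (gonCurves γ x).Finite ∧
    ∃ C₀ : ℕ, ∀ (L : Type) [Field L] [Algebra ℂ L] [IsFF ℂ L] (v : Fin (M + 1) → L),
      OnVar ℂ x v → coords ℂ v = ⊤ → Gon ℂ γ L → pht ℂ v ≤ C₀ := by
  obtain ⟨B, hB⟩ := Pool.Agent.Run7.h830.GN.bounded d hd r γ
  refine ⟨B, ?_⟩
  intro E K _ _ _ _ _ _ _ p q hr hpq htr M x hx hgen
  obtain ⟨R, hR, hxR, h⟩ := hB ℂ E K hr p q hpq M x hx hgen
  have hfin : (gonCurves γ x).Finite := by
    refine (Pool.Agent.Run7.h830.GN.finite_gon htr hR hxR h).subset ?_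
    rintro V ⟨L, _, _, _, v, hv, hvgen, hgon, rfl⟩
    exact ⟨L, inferInstance, inferInstance, v, hv,
      Pool.Agent.Q103.SF.nonconst_of_low hv hvgen, hgon, rfl⟩
  refine ⟨hfin, ?_⟩
  obtain ⟨b, hb⟩ := Pool.Agent.Run7.h830.GN.deg_fin x hfin
  exact ⟨b, fun L _ _ _ v hv hvgen hgon => hb L v hv hvgen
    ⟨L, inferInstance, inferInstance, inferInstance, v, hv, hvgen, hgon, rfl⟩⟩

end Pool.Agent.Run7.h830.Kept.GonalityCase
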