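import Pool.Agent.Q103.SF.Fin2

/-!
# Hyperbolicity and subvarieties of general type for surfaces which carry a map with many preperiodic
points

`X` is a complex projective surface (an integral closed subvariety of a projective space of dimension two,
smooth or singular), given by its function field `K` and the homogeneous coordinates `x` of its generic
point: `coords ℂ x = ⊤` says that the ratios of the coordinates generate `K`.

`ManyPrep ℂ d B p q` (`Pool/Agent/Q103/EC/Mxv.lean`): `f = p / q` is a rational map of degree `d` of the
projective line over `K` (a family of rational maps over an open subset of `X`) with at least `B`
preperiodic points in `P^1(K)` (preperiodic rational sections), and the moduli map `X ⇢ M_d` is generically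
finite: if `f` is conjugate over an algebraic closure of `K` to a map with coefficients algebraic over a
field between `ℂ` and `K`, then `K` is algebraic over this field. For instance all generically finite
covers of the surfaces of the quadratic maps with a marked point of exact period `n ≥ B` are such surfaces
(`Pool.Agent.Q103.SF.exists_surface`).

* `KobayashiHyp x`: the Kobayashi pseudodistance of two different points of `X` is positive: the Poincare
  lengths of the chains of holomorphic discs in `X` which join them are bounded below by a positive constant
  (`Pool/Agent/Q103/KO/Defs.lean`).
* `BrodyHyp x`: all holomorphic maps from `ℂ` to `X` are constant.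
* `PicardHyp x`: all holomorphic maps from the punctured disc to `X` extend to the disc.
* `AllGeneral x`: every closed subvariety of positive dimension of `X`, including `X`, is of general type
  (`GeneralType ℂ E w`: for some `N > 0` there are `N`-canonical forms of the function field `E`, regular at
  all prime divisors of all models, with `w` algebraically independent ratios).
* `lowCurves x` is the set of the closed curves of geometric genus at most one in `X`.

Theorem. For every `d ≥ 2` there is a number `B` such that for all projective surfaces `X` with a rational
map `f` of degree `d` over `K` with at least `B` preperiodic points in `P^1(K)` and generically finite moduli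
map: `X` is Kobayashi hyperbolic if and only if every subvariety of `X`, including `X`, is of general type.
Both are equivalent to each of the other conditions above and to `lowCurves x = ∅`.

This answers Q1 for these surfaces, smooth or singular. The surfaces themselves are of general type, and
what is not known for surfaces of general type is that they are hyperbolic if they contain no rational or
elliptic curves.

Proof. The equivalence is contained in a helper theorem of the starting files,
`Pool.Agent.Q103.SF.surface_tfae` (helper103, helper95, helper111, helper285, helper24, helper239 and
others), which was not handed in for this problem; a consequence is the starting result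
`MP_f82ddf_nt.ManyPreperiodicSurfaces` on surfaces over number fields with finitely many rational points.
-/

set_option autoImplicit false

namespace Pool.Agent.Run7.h830.Kept.KobayashiCase

open Polynomial
open Pool.Agent.W602.GT (coords)
open Pool.Agent.Q103.EC (ManyPrep)
open Pool.Agent.Q103.SF (KobayashiHyp BrodyHyp PicardHyp AllGeneral lowCurves)

/-- **Hyperbolicity and subvarieties of general type** for surfaces which carry a map with many
preperiodic points. -/
theorem result (d : ℕ) (hd : 2 ≤ d) : ∃ B : ℕ, ∀ (K : Type) [Field K] [Algebra ℂ K] (p q : K[X]),
    ManyPrep ℂ d B p q → Algebra.trdeg ℂ K = (2 : ℕ) → ∀ (M : ℕ) (x : Fin (M + 1) → K), x ≠ 0 →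
    coords ℂ x = ⊤ →
      [KobayashiHyp x, AllGeneral x, BrodyHyp x, PicardHyp x, lowCurves x = ∅].TFAE := by
  obtain ⟨B, hB⟩ := Pool.Agent.Q103.SF.surface_tfae d hd
  refine ⟨B, fun K _ _ p q h htr M x hx hgen => ?_⟩
  obtain ⟨-, -, h3⟩ := hB K p q h htr M x hx hgen
  tfae_have 1 ↔ 2 := h3.out 0 6
  tfae_have 1 ↔ 3 := h3.out 0 1
  tfae_have 1 ↔ 4 := h3.out 0 2
  tfae_have 1 ↔ 5 := h3.out 0 8
  tfae_finish

end Pool.Agent.Run7.h830.Kept.KobayashiCase
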