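import Pool.Agent.Run7.h830.CS.QF

/-!
# The Lang-Vojta equivalence for the quasi-finite covers of the moduli spaces of rational maps with a
marked periodic point

`V d n K` (`Pool/Agent/Q41/GT/Mod.lean`) is the moduli space `M_d(n)` of the pairs `(f, z)` of a rational
map `f` of degree `d` and a point `z` of exact period `n` on the projective line over `K`, `n ≥ 3`: each
pair is conjugate to exactly one pair `(f, ∞)` with `f(∞) = 0`, `f(0) = 1`, and the coordinates of the point
of `V d n K` are the coefficients of this `f` (`Pool.Agent.Q41.GT.b_nfm`). It is an affine variety of pure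
dimension `2 d - 2` (`Pool.Agent.Q41.GT.b_cmp`).

`QFin d n I J U` (`Pool/Agent/Q41/GT/Stm6.lean`): `U` is the locally closed subset of affine space, with the
coordinates in `τ ⊕ Sg d`, which is given by the equations in `I` and the inequations in `J` (one of the
polynomials in `J` does not vanish), and the projection to the coordinates in `Sg d` is a morphism with
finite fibres from `U` to `V d n`. As `V d n` is affine, every variety `X` with a quasi-finite morphism to
`V d n` is quasi-affine by Zariski's main theorem, and so isomorphic to such a `U`: this contains the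
moduli spaces `V d n` themselves, their subvarieties, the moduli spaces of maps with more marked
(preperiodic) points, and all their quasi-finite covers, affine or not, smooth or not.

Theorem. For every `d ≥ 2` there is a number `B` such that for all `n ≥ B` and all quasi-projective
varieties `U` with a quasi-finite morphism to the moduli space `V d n` all three conditions of Q1 hold:

(1) `U` is Brody hyperbolic, and even Borel hyperbolic: all holomorphic maps from the punctured disc to `U`
are meromorphic at the puncture;

(2) every subvariety of `U` of positive dimension (`W`, with the prime ideal `P` of its closure) is of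
general type, and so of log-general type (`GeneralType`: for some `N > 0` there are `N`-canonical forms of
the function field, regular at all prime divisors of all models, with `w = dim W` algebraically independent
ratios);

(3) for each function field `L` of a smooth projective curve, each point `c` of the curve (`Place`) and each
point `a` of `U`, there are only finitely many rational maps from the curve to `U` which are regular at `c`
with the value `a` (`Ge c 1 (x i - a i)`: the function `x i - a i` vanishes at `c`); in particular there are
only finitely many such morphisms from each open subset of the curve.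

So the conditions (1), (2), (3) are equivalent for `U`: they are all satisfied.

Proof. The first part of (1) is deduced from the Brody hyperbolicity of `V d n`
(`Pool.Agent.Q103.EC.b_brd`, helper103, helper162 and others), the second part is new and proved as for `V d n`
(`Pool.Agent.Q162.EC.brl`): the coordinates of the map are algebraic over the field of the functions
which are meromorphic at the puncture. (2) and (3) are the helper theorems `Pool.Agent.Q41.GT.c_qsub` and
`c_qpnt` of helper41 and others.
-/

set_option autoImplicit false

namespace Pool.Agent.Results.MP_dc0411_ag.ModuliOfMaps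

open FF Metric
open Pool.Agent.Q41.GT (Sg V QFin)
open Pool.Agent.W602.GT (GeneralType)
open Pool.Agent.W603.LV (Ge)

/-- **The Lang-Vojta equivalence for the quasi-finite covers of the moduli spaces of rational maps with a
marked periodic point**: all conditions are satisfied. -/
theorem result (d : ℕ) (hd : 2 ≤ d) : ∃ B : ℕ, ∀ n : ℕ, B ≤ n → ∀ (τ : Type) [Fintype τ]
    (I J : Set (MvPolynomial (τ ⊕ Sg d) ℂ)) (U : Set (τ ⊕ Sg d → ℂ)), QFin d n I J U →
    -- (1) entire curves, and maps from punctured discs
    (∀ f : ℂ → (τ ⊕ Sg d) → ℂ, (∀ i, Differentiable ℂ fun t => f t i) → (∀ t, f t ∈ U) →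
      ∀ s t, f s = f t) ∧
    (∀ f : ℂ → (τ ⊕ Sg d) → ℂ, (∀ i, DifferentiableOn ℂ (fun t => f t i) (ball 0 1 \ {0})) →
      (∀ t ∈ ball (0 : ℂ) 1 \ {0}, f t ∈ U) → ∀ i, MeromorphicAt (fun t => f t i) 0) ∧
    -- (2) subvarieties
    (∀ (P : Ideal (MvPolynomial (τ ⊕ Sg d) ℂ)) [P.IsPrime], ∀ W ⊆ U, W.Infinite →
      P = MvPolynomial.vanishingIdeal ℂ W →
      ∃ w, 1 ≤ w ∧ GeneralType ℂ (FractionRing (MvPolynomial (τ ⊕ Sg d) ℂ ⧸ P)) w) ∧
    -- (3) pointed curves
    ∀ (L : Type) [Field L] [Algebra ℂ L] [IsFF ℂ L] (c : Place ℂ L), ∀ a ∈ U,
      {x : τ ⊕ Sg d → L | (∀ F ∈ I, MvPolynomial.aeval x F = 0) ∧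
        (∃ G ∈ J, MvPolynomial.aeval x G ≠ 0) ∧
        ∀ i, Ge c 1 (x i - algebraMap ℂ L (a i))}.Finite := by
  obtain ⟨B1, hB1⟩ := Pool.Agent.Run7.h830.CS.brd_cover d hd
  obtain ⟨B2, hB2⟩ := Pool.Agent.Run7.h830.CS.brl_cover d hd
  obtain ⟨B3, hB3⟩ := Pool.Agent.Q41.GT.c_qsub d hd
  obtain ⟨B4, hB4⟩ := Pool.Agent.Q41.GT.c_qpnt d hd
  refine ⟨max (max B1 B2) (max B3 B4), fun n hn τ _ I J U hU => ⟨?_, ?_, ?_, ?_⟩⟩
  · exact hB1 n (by omega) τ I J U hU
  · exact hB2 n (by omega) τ I J U hU
  · intro P _ W hW hinf hP
    exact hB3 n (by omega) ℂ τ I J U hU P W hW hinf hP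
  · intro L _ _ _ c a ha
    exact hB4 n (by omega) ℂ τ L I J U hU c a ha

end Pool.Agent.Results.MP_dc0411_ag.ModuliOfMaps
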