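import Pool.Agent.Run7.h830.CS.Main

/-!
# Kobayashi's conjecture and varieties which carry a map with many preperiodic points

`X` is a complex projective variety of any dimension `w`, given by its function field `K` and the homogeneous
coordinates `x` of its generic point (`coords ℂ x = ⊤`: the ratios of the coordinates generate `K`).
`f = p / q` is a rational map of degree `d` of the projective line over `K`, that is, a family of rational
maps of degree `d` over an open subset of `X`; `prePer d p q` is the set of the preperiodic points of `f` in
`P^1(K)`, that is, of the preperiodic rational sections of the family. `Isotrivial ℂ d p q`: over an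
algebraic closure of `K` the map `f` is conjugate to a map with constant coefficients. `MaxVar ℂ d p q`: the
moduli map `X ⇢ M_d` is generically finite: if `f` is conjugate over an algebraic closure of `K` to a map
with coefficients algebraic over a field between `ℂ` and `K`, then `K` is algebraic over this field. There
are examples for every `d` and every number of preperiodic points, of dimension `2 d - 2`
(`Pool.Agent.Q103.RP.exists_over`).

`GeneralType ℂ E v`: for some `N > 0` there are `N`-canonical forms of the function field `E`, regular at all
prime divisors of all models, with `v` algebraically independent ratios: the canonical class of the smooth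
projective models of `E` is big.

Theorem. For every `d ≥ 2` there is a number `B` such that the following holds for all `X` as above and all
rational maps `f` of degree `d` over `K` with at least `B` preperiodic points in `P^1(K)` which are not
isotrivial.

(1) `X` is not special, and there is a dominant rational map from `X` to a variety `Y` (with the function
field `E`, the base of the moduli fibration of `f`) of general type of dimension `v ≥ 1`, with irreducible
general fibres.

(2) If the moduli map `X ⇢ M_d` is generically finite then `X` is of general type: the canonical class of a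
resolution of `X` is big.

If `X` is smooth and Kobayashi hyperbolic and (2) applies then `K_X` is ample, as Kobayashi's conjecture
predicts, because a big canonical class is ample if there are no rational curves (cone theorem, base point
free theorem; this last standard step is not formalised here). If `X` is a smooth hyperbolic threefold and
carries any `f` as above, also if its moduli map is not generically finite, then `K_X` is ample too:
threefolds are settled except for Calabi-Yau threefolds, and these are special (Campana), against (1).

Proof. (1), (2) follow from the helper theorem `Pool.Agent.Q103.VR.fibration` of the starting files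
(helper103, helper41 and others), which was not handed in for this problem, and from
`Pool.Agent.TH466.QT.not_special`. (1) is also contained in `MP_1209e6_ag.ManyPreperiodicPoints` and
`MP_2a5ae2_ag.ManyPreperiodicPoints`, on special varieties and on entire curves.
-/

set_option autoImplicit false

namespace Pool.Agent.Run7.h830.Kept.NotSpecialCase

open Polynomial
open Pool.Agent.W602.GT
open Pool.Agent.Q103.EC (prePer MaxVar Isotrivial)
open Pool.Agent.Q103.VR (ModuliFibration)

/-- **Kobayashi's conjecture and varieties which carry a map with many preperiodic points.** -/
theorem result (d : ℕ) (hd : 2 ≤ d) :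
    ∃ B : ℕ, ∀ (K : Type) [Field K] [Algebra ℂ K] (M : ℕ) (x : Fin (M + 1) → K), x ≠ 0 →
      coords ℂ x = ⊤ → ∀ w : ℕ, Algebra.trdeg ℂ K = w →
      ∀ p q : K[X], IsCoprime p q → max p.natDegree q.natDegree = d →
      (B : ℕ∞) ≤ (prePer d p q).encard → ¬ Isotrivial ℂ d p q →
      -- (1)
      (¬ Special ℂ K w (fun _ => False) ∧ ∃ (E : IntermediateField ℂ K) (v : ℕ),
        ModuliFibration d p q E ∧ 1 ≤ v ∧ v ≤ w ∧ Algebra.trdeg ℂ E = v ∧ GeneralType ℂ E v) ∧
      -- (2)
      (MaxVar ℂ d p q → GeneralType ℂ K w) := by
  obtain ⟨B1, hB1⟩ := Pool.Agent.Run7.h830.CS.fib d hd
  obtain ⟨B2, hB2⟩ := Pool.Agent.Run7.h830.CS.special d hd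
  obtain ⟨B3, hB3⟩ := Pool.Agent.Q103.EC.main d hd
  refine ⟨max B1 (max B2 B3), fun K _ _ M x hx hgen w hw p q hco hmax hmany hiso => ?_⟩
  have hm1 : (B1 : ℕ∞) ≤ (prePer d p q).encard :=
    le_trans (by exact_mod_cast le_max_left B1 _) hmany
  have hm2 : (B2 : ℕ∞) ≤ (prePer d p q).encard :=
    le_trans (by exact_mod_cast le_trans (le_max_left B2 B3) (le_max_right B1 _)) hmany
  have hm3 : (B3 : ℕ∞) ≤ (prePer d p q).encard :=
    le_trans (by exact_mod_cast le_trans (le_max_right B2 B3) (le_max_right B1 _)) hmany
  obtain ⟨E, v, hE, hv, htr, -, h1⟩ := hB1 K p q hco hmax hm1 w hw
  have hv1 : 1 ≤ v := by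
    rcases Nat.eq_zero_or_pos v with h0 | h0
    · exfalso
      apply hiso
      have hbot : E = ⊥ := Pool.Agent.Run7.h830.CS.bot_of_trdeg E (by rw [htr, h0, Nat.cast_zero])
      rw [hbot] at hE
      exact Pool.Agent.Run7.h830.CS.isotrivial_of_bot hE
    · exact h0
  refine ⟨⟨fun hS => hiso ?_, E, v, hE, hv1, hv, htr, (h1 hv1).1⟩, fun hm => ?_⟩
  · exact Pool.Agent.Run7.h830.CS.isotrivial_of_bot
      (hB2 K M x hx hgen w hw (Or.inl hS) p q hco hmax hm2)
  · exact (hB3 K p q ⟨hco, hmax, hm, hm3⟩ w (hv1.trans hv) hw).1

end Pool.Agent.Run7.h830.Kept.NotSpecialCase
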