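import Pool.Agent.Q103.SF.Fin2

/-!
# Algebraic notions of hyperbolicity for surfaces which carry a map with many preperiodic points

`X` is a complex projective surface (an integral closed subvariety of a projective space of dimension two,
smooth or singular), given by its function field `K` and the homogeneous coordinates `x` of its generic
point: `coords ℂ x = ⊤` says that the ratios of the coordinates generate `K`.

`ManyPrep ℂ d B p q` (`Pool/Agent/Q103/EC/Mxv.lean`): `f = p / q` is a rational map of degree `d` of the
projective line over `K` (a family of rational maps over an open subset of `X`) with at least `B`
preperiodic points in `P^1(K)` (preperiodic rational sections), and the moduli map `X ⇢ M_d` is generically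
finite: if `f` is conjugate over an algebraic closure of `K` to a map with coefficients algebraic over a
field between `ℂ` and `K`, then `K` is algebraic over this field. For instance all generically finite
covers of the surfaces of the quadratic maps with a marked point of exact period `n ≥ B` are such surfaces
(`Pool.Agent.Q103.SF.exists_surface`).

* `NoElliptic x`: every morphism from an elliptic curve to `X` is constant. (This holds if `X` is groupless.)
* `AlgHyp x`: `X` is algebraically hyperbolic: the degree of the nonconstant morphisms from a smooth
  projective curve of genus `g` to `X` is at most `A (2 g - 2)`, with a constant `A`.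
* `AllGeneral x`: every closed subvariety of positive dimension of `X` is of general type.
* `GeomHyp x`: for every pointed smooth projective curve there are only finitely many morphisms to `X` with
  a given value at the marked point.

Theorem. For every `d ≥ 2` there is a number `B` such that for all projective surfaces `X` with a rational
map `f` of degree `d` over `K` with at least `B` preperiodic points in `P^1(K)` and generically finite moduli
map the four conditions are equivalent.

So for these surfaces (smooth or not) the conditions (1) algebraically hyperbolic, (3) groupless and (4) all
integral closed subvarieties are of general type of Q1 are equivalent; (2), bounded, is between (1) and (3)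
by the known implications. What was not known in dimension two is that (2), (3) or (4) imply (1).

Proof. The equivalence is contained in a helper theorem of the starting files,
`Pool.Agent.Q103.SF.surface_tfae` (helper103, helper95, helper111, helper285, helper24, helper239 and
others), which was not handed in for this problem; a consequence is the starting result
`MP_f82ddf_nt.ManyPreperiodicSurfaces` on surfaces over number fields with finitely many rational points.
-/

set_option autoImplicit false

namespace Pool.Agent.Run7.h830.Kept.NotionsCase

open Polynomial
open Pool.Agent.W602.GT (coords)
open Pool.Agent.Q103.EC (ManyPrep)
open Pool.Agent.Q103.SF (NoElliptic AlgHyp AllGeneral GeomHyp)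

/-- **Algebraic notions of hyperbolicity** for surfaces which carry a map with many preperiodic
points. -/
theorem result (d : ℕ) (hd : 2 ≤ d) : ∃ B : ℕ, ∀ (K : Type) [Field K] [Algebra ℂ K] (p q : K[X]),
    ManyPrep ℂ d B p q → Algebra.trdeg ℂ K = (2 : ℕ) → ∀ (M : ℕ) (x : Fin (M + 1) → K), x ≠ 0 →
    coords ℂ x = ⊤ → [NoElliptic x, AlgHyp x, AllGeneral x, GeomHyp x].TFAE := by
  obtain ⟨B, hB⟩ := Pool.Agent.Q103.SF.surface_tfae d hd
  refine ⟨B, fun K _ _ p q h htr M x hx hgen => ?_⟩
  obtain ⟨-, -, h3⟩ := hB K p q h htr M x hx hgen
  tfae_have 1 ↔ 2 := h3.out 4 5
  tfae_have 1 ↔ 3 := h3.out 4 6
  tfae_have 1 ↔ 4 := h3.out 4 7
  tfae_finish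

end Pool.Agent.Run7.h830.Kept.NotionsCase
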