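import Pool.Agent.Q103.RP.Stm
import Pool.Agent.Run7.h830.CS.Model

/-!
# Specialness and rational points of the varieties which carry a map with many preperiodic points

`X` is an integral projective variety of dimension `w` over the number field `k`, a subfield of the complex
numbers. It is given by its function field `K` and the homogeneous coordinates `x` of its generic point;
`coords k x = ⊤` says that `K` is generated by the ratios of the coordinates. `f = p / q` is a rational map of
degree `d` of the projective line over `K`, that is, a family of rational maps of degree `d` over an open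
subset of `X`; `prePer d p q` is the set of the preperiodic points of `f` in `P^1(K)`, that is, of the
preperiodic rational sections of the family. `Isotrivial k d p q`: over an algebraic closure of `K` the map
`f` is conjugate to a map with coefficients algebraic over `k`.

`ModuliFibration d p q E` (`Pool/Agent/Q103/VR/Stm.lean`): the field `E` between `k` and `K`, algebraically
closed in `K`, is the smallest field over whose algebraic closure `f` is defined up to conjugation; `f` is
conjugate over `K` to a map over `E` and its preperiodic points correspond to points of `P^1(E)`. So `E` is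
the function field of the base `Y` of a rational fibration `X ⇢ Y`, the moduli fibration of `f`, with
irreducible general fibres.

`Special k K w (fun _ => False)`: there is no rank one sheaf `L` of differential `m`-forms on (a smooth model
of) `X` of Kodaira dimension `m`, for any `m ≥ 1` (no Bogomolov sheaf), i.e. `X` is special.
`GeneralType k E v`: for some `N > 0` there are `N`-canonical forms of the function field `E`, regular at all
prime divisors of all models, with `v` algebraically independent ratios.

`cfv d p q`: the coefficients of `f`. They are, up to a common factor `t`, the values at `x` of forms `F s` of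
degree `κ`; so the values `F s (a)` are the coefficients of the specialisation `f_a` of `f` at `a`.

`lowVals k x R F g D T` (`Pool/Agent/Q103/RP/Main.lean`): the set of the images, under the rational map
`a ↦ (g 0 (a) : ... : g r (a))`, of the points `a` of `X` over all number fields `L` of degree at most `D`
which contain `k`, not on `R = 0`, at which the values of the forms `F s` have absolute height at most `T`
(`mulHeight ≤ T ^ [L : ℚ]`), as points of the complex projective space by all embeddings of `L` over `k`. For
`F = MvPolynomial.X` these are the points `a` of absolute height at most `T`. It is assumed that the ratios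
`g j / g 0` are in `E`, i.e. that this rational map is a composition `X ⇢ Y ⇢ P^r`.

Theorem. For every `d ≥ 2` there are a number `B₀` and numbers `B D ε` such that the following holds for all
`X` over all number fields `k` as above and all rational maps `f` of degree `d` over `K` which are not
isotrivial and have at least `n` preperiodic points in `P^1(K)`, where `n ≥ B₀`:

(1) the base `Y` of the moduli fibration of `f` is a variety of general type of dimension `v ≥ 1`, and `X` is
not special;

(2) for all `D` and all `ε > 0` with `B D ε ≤ n`, and every rational map `g` from `Y` to a projective space,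
the images in `g(Y)` of the points of `X` over all number fields of degree at most `D` together are sparse
(off a proper closed subset of `X` which depends on `g`): there are at most `C T ^ (κ ε)` images of points of
absolute height at most `T`, and at most `C T ^ ε` images of points with absolute height `H(f_a) ≤ T`.

By (1) the condition 1 of Q1 fails for `X`, so Q1 predicts that also 2 (potential density) and 3 (the
potential weak Hilbert property, which implies 2) fail. By (2) the points over any number field `L` are few:
`X(L)` is contained (off a closed subset) in sparse unions of fibres of `X ⇢ Y`; for `v = 1` it is known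
(Faltings) that `Y(L)` is finite, so that 2 and 3 fail and Q1 holds for `X`.

Proof. (2), and that `Y` is of general type, are the helper theorem `Pool.Agent.Q103.RP.sparse_fib` of the
starting files (helper103, with helper256, helper41 and others), which was not handed in; the case of
generically finite moduli maps (`Y = X`) is contained in the starting result
`MP_7ede32_ag.OneSetForPointsAndCurves`. A variety which dominates a variety of general type of positive
dimension is not special (`Pool.Agent.TH466.QT.not_special`).
-/

set_option autoImplicit false

namespace Pool.Agent.Run7.h830.Kept.SparseCase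

open FF Polynomial
open Pool.Agent.W602.GT
open Pool.Agent.Q103.EC (prePer Isotrivial)
open Pool.Agent.Q103.VR (ModuliFibration)
open Pool.Agent.Q103.RP (cfv lowVals)

/-- **Special varieties and rational points** of varieties which carry a map with many preperiodic
points. -/
theorem result (d : ℕ) (hd : 2 ≤ d) : ∃ (B₀ : ℕ) (B : ℕ → ℝ → ℕ),
    ∀ (k : Type) [Field k] [NumberField k] [Algebra k ℂ] (K : Type) [Field K] [Algebra k K] (M : ℕ)
      (x : Fin (M + 1) → K), x ≠ 0 → coords k x = ⊤ → ∀ w : ℕ, Algebra.trdeg k K = w →
      ∀ (n : ℕ) (p q : K[X]), B₀ ≤ n → IsCoprime p q → max p.natDegree q.natDegree = d →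
      (n : ℕ∞) ≤ (prePer d p q).encard → ¬ Isotrivial k d p q →
      -- (1)
      ¬ Special k K w (fun _ => False) ∧
      ∃ (E : IntermediateField k K) (v : ℕ), ModuliFibration d p q E ∧ 1 ≤ v ∧ v ≤ w ∧
        Algebra.trdeg k E = v ∧ GeneralType k E v ∧
        -- (2)
        ∀ (κ : ℕ) (F : Fin 2 × Fin (d + 1) → MvPolynomial (Fin (M + 1)) k) (t : K),
        (∀ s, (F s).IsHomogeneous κ) → t ≠ 0 → (∀ s, cfv d p q s = t * val x (F s)) →
        ∀ (r e : ℕ) (g : Fin (r + 1) → MvPolynomial (Fin (M + 1)) k),
        (∀ j, (g j).IsHomogeneous e) → val x (g 0) ≠ 0 →
        (∀ j, val x (g j) / val x (g 0) ∈ E) →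
        ∃ R : MvPolynomial (Fin (M + 1)) k, IsForm R ∧ val x R ≠ 0 ∧
          ∀ (D : ℕ) (ε : ℝ), 0 < ε → B D ε ≤ n → ∃ C : ℝ, ∀ T : ℝ, 1 ≤ T →
          ((lowVals k x R F g D T).Finite ∧ ((lowVals k x R F g D T).ncard : ℝ) ≤ C * T ^ ε) ∧
          (lowVals k x R MvPolynomial.X g D T).Finite ∧
            ((lowVals k x R MvPolynomial.X g D T).ncard : ℝ) ≤ C * T ^ (κ * ε) := by
  obtain ⟨B₀, B, hB⟩ := Pool.Agent.Q103.RP.sparse_fib d hd
  refine ⟨B₀, B, ?_⟩
  intro k _ _ _ K _ _ M x hx hgen w hw n p q hn hcop hdeg hmany hiso
  obtain ⟨E, v, hE, hv, htr, -, hgt, hsp⟩ := hB k K M x hx hgen w hw n p q hn hcop hdeg hmany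
  have hv1 : 1 ≤ v := by
    rcases Nat.eq_zero_or_pos v with h0 | h0
    · exfalso
      apply hiso
      rw [hE.isotrivial]
      rw [h0, Nat.cast_zero] at htr
      have h3 : Algebra.IsAlgebraic k E := trdeg_eq_zero_iff.1 htr
      intro u hu
      have h4 : IsAlgebraic k (⟨u, hu⟩ : E) := h3.isAlgebraic _
      exact h4.algebraMap (A := K)
    · exact h0
  refine ⟨?_, E, v, hE, hv1, hv, htr, hgt hv1, hsp⟩
  have hess : Algebra.EssFiniteType k K := essFinite hgen
  obtain ⟨M0, y, hy, hygen⟩ := Pool.Agent.Run7.h830.CS.exists_model (k := k) E
  have hess' : Algebra.EssFiniteType k E := essFinite hygen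
  exact Pool.Agent.TH466.QT.not_special hw E hv1 (hgt hv1)

end Pool.Agent.Run7.h830.Kept.SparseCase
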