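import Pool.Agent.Run7.h830.CS.Sps

/-!
# Semi-abelian and entire special sets of surfaces which carry a map with many preperiodic points

`X` is a complex projective surface (an integral closed subvariety of a projective space of dimension two,
smooth or singular), given by its function field `K` and the homogeneous coordinates `x` of its generic
point: `coords ℂ x = ⊤` says that the ratios of the coordinates generate `K`.

`ManyPrep ℂ d B p q` (`Pool/Agent/Q103/EC/Mxv.lean`): `f = p / q` is a rational map of degree `d` of the
projective line over `K` (a family of rational maps over an open subset of `X`) with at least `B`
preperiodic points in `P^1(K)` (preperiodic rational sections), and the moduli map `X ⇢ M_d` is generically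
finite: if `f` is conjugate over an algebraic closure of `K` to a map with coefficients algebraic over a
field between `ℂ` and `K`, then `K` is algebraic over this field. For instance all generically finite
covers of the surfaces of the quadratic maps with a marked point of exact period `n ≥ B` are such surfaces
(`Pool.Agent.Q103.SF.exists_surface`).

A closed subset of `X` is given by the set of the forms which vanish on it
(`Pool/Agent/Q103/SF/Defs.lean`, `Defs2.lean`). `lowCurves x` is the set of the closed curves of geometric
genus `g ≤ 1` in `X` (`canDeg = 2 g - 2 ≤ 0`), and
* `entForms x` gives the Zariski closure `Sp_h(X)` of the union of the nonconstant entire curves,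
* `lowForms x` the union of the closed curves of genus `g ≤ 1`,
* `ellForms x` the Zariski closure of the union of the images of the nonconstant maps from elliptic curves,
* `meroForms x` the Zariski closure of the union of the images of the nonconstant meromorphic maps from the
  spaces `ℂ ^ g`, `g ≥ 1`.

Theorem. For every `d ≥ 2` there is a number `B` such that for all projective surfaces `X` with a rational
map `f` of degree `d` over `K` with at least `B` preperiodic points in `P^1(K)` and generically finite moduli
map: there are only finitely many closed curves of genus at most one in `X`, and their union is equal to
each of the other three special sets.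

As elliptic curves are semi-abelian varieties, and a rational map from a semi-abelian variety of dimension
`g` gives a meromorphic map from its universal cover `ℂ ^ g`, the semi-abelian special set `Sp_sab(X)` is
between the sets given by `ellForms x` and `meroForms x`. So `Sp_sab(X) = Sp_h(X)`, the equality of Q1.

Proof. All parts of the proof are in helper theorems of the starting files
(`Pool.Agent.Q103.SF.surface_special`, helper103, helper95, helper111, helper285, helper24 and others, not
handed in); the file `Pool/Agent/Run7/h830/CS/Sps.lean` compares the closed sets.
-/

set_option autoImplicit false

namespace Pool.Agent.Run7.h830.Kept.SpecialSetsCase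

open Polynomial
open Pool.Agent.W602.GT (coords)
open Pool.Agent.Q103.EC (ManyPrep)
open Pool.Agent.Q103.SF (lowCurves lowForms entForms ellForms meroForms)

/-- **Semi-abelian and entire special sets of surfaces which carry a map with many preperiodic
points.** -/
theorem result (d : ℕ) (hd : 2 ≤ d) : ∃ B : ℕ, ∀ (K : Type) [Field K] [Algebra ℂ K] (p q : K[X]),
    ManyPrep ℂ d B p q → Algebra.trdeg ℂ K = (2 : ℕ) → ∀ (M : ℕ) (x : Fin (M + 1) → K), x ≠ 0 →
    coords ℂ x = ⊤ → (lowCurves x).Finite ∧ entForms x = lowForms x ∧ ellForms x = entForms x ∧
      meroForms x = entForms x := by
  obtain ⟨B, hB⟩ := Pool.Agent.Q103.SF.surface_special d hd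
  refine ⟨B, fun K _ _ p q h htr M x hx hgen => ?_⟩
  have hS := (hB K p q h htr M x hx hgen).2
  have h1 := Pool.Agent.Run7.h830.CS.ent_eq hS
  exact ⟨hS.finite, h1, (Pool.Agent.Run7.h830.CS.ell_eq hS).trans h1.symm,
    (Pool.Agent.Run7.h830.CS.mero_eq hS).trans h1.symm⟩

end Pool.Agent.Run7.h830.Kept.SpecialSetsCase
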