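import Pool.Agent.Run7.h830.CS.Deg

/-!
# Degrees of the curves in surfaces which carry a map with many preperiodic points

`X` is a complex projective surface (an integral closed subvariety of a projective space of dimension two,
smooth or singular), given by its function field `K` and the homogeneous coordinates `x` of its generic
point: `coords ℂ x = ⊤` says that the ratios of the coordinates generate `K`.

`ManyPrep ℂ d B p q` (`Pool/Agent/Q103/EC/Mxv.lean`): `f = p / q` is a rational map of degree `d` of the
projective line over `K` (a family of rational maps over an open subset of `X`) with at least `B`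
preperiodic points in `P^1(K)` (preperiodic rational sections), and the moduli map `X ⇢ M_d` is generically
finite: if `f` is conjugate over an algebraic closure of `K` to a map with coefficients algebraic over a
field between `ℂ` and `K`, then `K` is algebraic over this field. For instance all generically finite
covers of the surfaces of the quadratic maps with a marked point of exact period `n ≥ B` are such surfaces
(`Pool.Agent.Q103.SF.exists_surface`).

A curve `C` in `X` is given by its function field `L` (`IsFF ℂ L`: a function field of one variable) and its
generic point `v` (`OnVar ℂ x v`: the forms which vanish at `x` vanish at `v`; `coords ℂ v = ⊤`: the ratios of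
the coordinates of `v` generate `L`). Then `canDeg ℂ L = 2 g - 2`, where `g` is the geometric genus of `C`,
and `pht ℂ v` is the degree of the curve `C` in the projective space.

Theorem. For every `d ≥ 2` there is a number `B₀` such that for all projective surfaces `X` with a rational
map `f` of degree `d` over `K` with at least `B₀` preperiodic points in `P^1(K)` and generically finite moduli
map, and for every embedding of `X` in a projective space, there are constants `A`, `B` such that for all
curves `C` in `X`, of any geometric genus `g ≥ 0`,

  `deg C ≤ A (2 g - 2) + B`.

So if `X` is smooth then `K_X · C ≤ c deg C ≤ 2 c A (g - 1) + c B`, where `c` is a number such that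
`c H - K_X` is generated by its global sections, `H` a hyperplane section; this is the inequality of Q1, and
`Λ_X` is finite. (`X` is of general type.)

Proof. By a helper theorem of the starting files (`Pool.Agent.Q103.SF.surface_special` of helper103 and
others, not handed in) the degree of a curve in `X` is at most `A (2 g - 2)` or it is one of finitely many
curves of genus at most one. A curve is determined by its equations up to isomorphism, so each of the
finitely many curves has one degree (`Pool.Agent.Run7.h830.CS.pht_eq`).
-/

set_option autoImplicit false

namespace Pool.Agent.Run7.h830.Kept.SurfacesCase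

open FF Polynomial
open Pool.Agent.W602.GT (coords)
open Pool.Agent.Y216 (OnVar)
open Pool.Agent.W603.LV (canDeg)
open Pool.Agent.W603.PV (pht)
open Pool.Agent.Q103.EC (ManyPrep)

/-- **Degrees of the curves in surfaces which carry a map with many preperiodic points.** -/
theorem result (d : ℕ) (hd : 2 ≤ d) : ∃ B₀ : ℕ, ∀ (K : Type) [Field K] [Algebra ℂ K] (p q : K[X]),
    ManyPrep ℂ d B₀ p q → Algebra.trdeg ℂ K = (2 : ℕ) → ∀ (M : ℕ) (x : Fin (M + 1) → K), x ≠ 0 →
    coords ℂ x = ⊤ → ∃ A B : ℕ, ∀ (L : Type) [Field L] [Algebra ℂ L] [IsFF ℂ L]
      (v : Fin (M + 1) → L), OnVar ℂ x v → coords ℂ v = ⊤ → pht ℂ v ≤ A * canDeg ℂ L + B := by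
  obtain ⟨B₀, hB⟩ := Pool.Agent.Q103.SF.surface_special d hd
  exact ⟨B₀, fun K _ _ p q h htr M x hx hgen =>
    Pool.Agent.Run7.h830.CS.degree_bound (hB K p q h htr M x hx hgen).2⟩

end Pool.Agent.Run7.h830.Kept.SurfacesCase
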