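import Pool.Agent.Q103.SF.Fin2

/-!
# Maps from complex tori and Kobayashi hyperbolicity for surfaces which carry a map with many
preperiodic points

`X` is a complex projective surface (an integral closed subvariety of a projective space of dimension two,
smooth or singular), given by its function field `K` and the homogeneous coordinates `x` of its generic
point: `coords ℂ x = ⊤` says that the ratios of the coordinates generate `K`.

`ManyPrep ℂ d B p q` (`Pool/Agent/Q103/EC/Mxv.lean`): `f = p / q` is a rational map of degree `d` of the
projective line over `K` (a family of rational maps over an open subset of `X`) with at least `B`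
preperiodic points in `P^1(K)` (preperiodic rational sections), and the moduli map `X ⇢ M_d` is generically
finite: if `f` is conjugate over an algebraic closure of `K` to a map with coefficients algebraic over a
field between `ℂ` and `K`, then `K` is algebraic over this field. For instance all generically finite
covers of the surfaces of the quadratic maps with a marked point of exact period `n ≥ B` are such surfaces
(`Pool.Agent.Q103.SF.exists_surface`).

* `NoElliptic x`: every morphism from an elliptic curve to `X` is constant.
* `NoMero x`: every meromorphic map from `ℂ ^ g`, for any `g`, to `X` is constant.
* `KobayashiHyp x`: the Kobayashi pseudodistance of two different points of `X` is positive: the Poincare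
  lengths of the chains of holomorphic discs in `X` which join them are bounded below by a positive constant
  (`Pool/Agent/Q103/KO/Defs.lean`).

Theorem. For every `d ≥ 2` there is a number `B` such that for all projective surfaces `X` with a rational
map `f` of degree `d` over `K` with at least `B` preperiodic points in `P^1(K)` and generically finite moduli
map: if all morphisms from elliptic curves to `X` are constant then `X` is Kobayashi hyperbolic (and all
meromorphic maps from `ℂ ^ g` to `X` are constant, and conversely).

Since elliptic curves are complex tori, this answers Q1 for these surfaces: if every holomorphic map from a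
complex torus to `X` is constant then `X` is Kobayashi hyperbolic. It is not assumed that `X` is smooth.

Proof. The equivalence is contained in a helper theorem of the starting files,
`Pool.Agent.Q103.SF.surface_tfae` (helper103, helper95, helper111, helper285, helper24, helper239 and
others), which was not handed in for this problem; a consequence is the starting result
`MP_f82ddf_nt.ManyPreperiodicSurfaces` on surfaces over number fields with finitely many rational points.
-/

set_option autoImplicit false

namespace Pool.Agent.Run7.h830.Kept.ToriCase

open Polynomial
open Pool.Agent.W602.GT (coords)
open Pool.Agent.Q103.EC (ManyPrep)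
open Pool.Agent.Q103.SF (NoElliptic NoMero KobayashiHyp)

/-- **Maps from complex tori and Kobayashi hyperbolicity** for surfaces which carry a map with many
preperiodic points. -/
theorem result (d : ℕ) (hd : 2 ≤ d) : ∃ B : ℕ, ∀ (K : Type) [Field K] [Algebra ℂ K] (p q : K[X]),
    ManyPrep ℂ d B p q → Algebra.trdeg ℂ K = (2 : ℕ) → ∀ (M : ℕ) (x : Fin (M + 1) → K), x ≠ 0 →
    coords ℂ x = ⊤ → [NoElliptic x, NoMero x, KobayashiHyp x].TFAE := by
  obtain ⟨B, hB⟩ := Pool.Agent.Q103.SF.surface_tfae d hd
  refine ⟨B, fun K _ _ p q h htr M x hx hgen => ?_⟩
  obtain ⟨-, -, h3⟩ := hB K p q h htr M x hx hgen
  tfae_have 1 ↔ 2 := h3.out 4 3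
  tfae_have 1 ↔ 3 := h3.out 4 0
  tfae_finish

end Pool.Agent.Run7.h830.Kept.ToriCase
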