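import Pool.Agent.Run7.h830.CS.Voj

/-!
# Vojta's height inequality over function fields for varieties which carry a map with many preperiodic
points

`k` is an algebraically closed field of characteristic zero, `F` the function field of a smooth projective
curve `B` over `k`, and `X` an integral projective variety over `F` (of any dimension, possibly singular),
given by its function field `K` over `F` and the homogeneous coordinates `y` of its generic point:
`coords F y = ⊤` says that the ratios of the coordinates generate `K` over `F`.

`ManyPrep F d B p q` (`Pool/Agent/Q103/EC/Mxv.lean`): `f = p / q` is a rational map of degree `d` of the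
projective line over `K = F(X)` (a family of rational maps over an open subset of `X`) with at least `B`
preperiodic points in `P^1(K)`, and the moduli map `X ⇢ M_d` over `F` is generically finite: if `f` is
conjugate over an algebraic closure of `K` to a map with coefficients algebraic over a field between `F`
and `K`, then `K` is algebraic over this field.

A point `P` of `X` over a finite extension `L` of `F` is given by its homogeneous coordinates `f` in `L`
(`OnVar F y f`: all forms over `F` which vanish at `y` vanish at `f`). `pht k f` is the degree of the
morphism from the curve `B_P` with function field `L` to projective space with the coordinates `f`, so that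
`pht k f / [L : F]` is the height `h(P)` with respect to `O(1)` (for the model of `X` in `P^M × B`);
`canDeg k L = 2 g(B_P) - 2`, so that `canDeg k L / [L : F]` is `χ(P)`.

Theorem. For every `d ≥ 2` there is a number `B` such that for all `k`, `F`, `X` and all `f` as above there
are a proper closed subset `G = 0` of `X` and a constant `A` such that for all finite extensions `L` of `F`
and all points `P` in `X(L)`, not in `G = 0`,

  `h(P) ≤ A (max (χ(P), 0) + 1)`.

As `χ(P) ≥ -2`, the right hand side is at most `A χ(P) + 3 A`. The height with respect to any other line
bundle on any model of `X`, for instance `K_𝒳 + 𝒟`, is at most `c h(P) + c'` with constants `c`, `c'`, for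
`P` outside a proper closed subset, and `N_D ≥ 0`. So the inequality of Q1 holds for all pairs `(𝒳, 𝒟)` over
`F`, for every divisor `𝒟`, whose generic fibre `X` carries a rational map with many preperiodic points and
with a generically finite moduli map; and for this it is not necessary to add the counting function
`N_D(P)`. (These `X` are of general type over the algebraic closure of `F`.)

The starting theorem `Pool.Agent.Q41.GT.c_voj` (helper41 and others, not handed in) is the special case in
which the moduli map of the total space `𝒳` over `k` is generically finite; here it is only assumed to be
generically finite on the generic fibre `X` over `F`, and `X` may be isotrivial.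

Examples: for each field `F` of characteristic zero and all `n ≥ 3` there are such `X` over `F` of dimension
`2 d - 2` with at least `n` preperiodic points (`Pool.Agent.Q103.RP.exists_over`).

Proof. The map and its preperiodic points can be specialized at all points `P` outside a proper closed
subset (`Pool.Agent.Q209.GT.main`). So one gets a map over `L` with many preperiodic points in `P^1(L)`,
whose cross ratios have heights at most `C max (2 g(B_P) - 2, 0)` by a theorem of helper41 and others
(`Pool.Agent.Q41.GT.c_cvh`). The coordinates of `P` satisfy algebraic equations over the field of these
cross ratios with coefficients in `F`, and the height over `L` of an element of `F` is `[L : F]` times its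
height over `F`.
-/

set_option autoImplicit false

namespace Pool.Agent.Run7.h830.Kept.VojtaCase

open Polynomial FF
open Pool.Agent.W602.GT (coords val IsForm)
open Pool.Agent.Y216 (OnVar)
open Pool.Agent.Q103.EC (ManyPrep)
open Pool.Agent.W603.LV (canDeg)
open Pool.Agent.W603.PV (pht)

/-- **Vojta's height inequality over function fields** for varieties which carry a map with many
preperiodic points and (relatively) generically finite moduli map. -/
theorem result (d : ℕ) (hd : 2 ≤ d) : ∃ B : ℕ, ∀ (k F K : Type) [Field k] [IsAlgClosed k]
    [CharZero k] [Field F] [Algebra k F] [IsFF k F] [Field K] [Algebra F K] (p q : K[X]),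
    ManyPrep F d B p q → ∀ (M : ℕ) (y : Fin (M + 1) → K), y ≠ 0 → coords F y = ⊤ →
    ∃ G : MvPolynomial (Fin (M + 1)) F, IsForm G ∧ val y G ≠ 0 ∧ ∃ A : ℕ,
      ∀ (L : Type) [Field L] [Algebra k L] [Algebra F L] [IsScalarTower k F L] [IsFF k L]
        (f : Fin (M + 1) → L), OnVar F y f → val f G ≠ 0 →
        (pht k f : ℝ) / Module.finrank F L ≤
          A * (max ((canDeg k L : ℝ) / Module.finrank F L) 0 + 1) := by
  obtain ⟨B, hB⟩ := Pool.Agent.Run7.h830.CS.vojta d hd
  refine ⟨B, fun k F K _ _ _ _ _ _ _ _ p q h M y hy hgen => ?_⟩
  obtain ⟨G, hG, hyG, A, hA⟩ := hB k F K p q h M y hy hgen
  refine ⟨G, hG, hyG, A, fun L _ _ _ _ _ f hf hfG => ?_⟩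
  have h1 := hA L f hf hfG
  rcases Nat.eq_zero_or_pos (Module.finrank F L) with h0 | h0
  · rw [h0]
    simp
  · have hn : (0 : ℝ) < Module.finrank F L := by exact_mod_cast h0
    have h2 : (pht k f : ℝ) ≤ A * (max (canDeg k L : ℝ) 0 + Module.finrank F L) := by
      exact_mod_cast h1
    rw [div_le_iff₀ hn]
    refine h2.trans (le_of_eq ?_)
    have h3 : max ((canDeg k L : ℝ) / Module.finrank F L) 0 * Module.finrank F L =
        max (canDeg k L : ℝ) 0 := by
      rw [max_mul_of_nonneg _ _ hn.le, div_mul_cancel₀ _ hn.ne', zero_mul]
    rw [mul_assoc, add_mul, h3, one_mul]

end Pool.Agent.Run7.h830.Kept.VojtaCase
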